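import Pool.Agent.H20.SJ2

namespace Pool.Agent.Results.MP_6c9e22_co.Differ
open Pool.Agent.H20

theorem result : ∀ n₀ : ℕ, ∃ n : ℕ, n₀ ≤ n ∧
    (signedJ n 2 (-1)).chromaticNumber < (signedK n 2 (-1)).chromaticNumber := by
  intro n₀
  refine ⟨Nat.centralBinom (3 * (n₀ + 60) + 1), ?_, ?_⟩
  · have h1 := Nat.four_pow_lt_mul_centralBinom (3 * (n₀ + 60) + 1) (by omega)
    have h2 : ∀ m : ℕ, m * m ≤ 4 ^ m := fun m => by
      have := Nat.lt_two_pow_self (n := m)
      calc m * m ≤ 2 ^ m * 2 ^ m := Nat.mul_le_mul this.le this.le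
        _ = 4 ^ m := by rw [← mul_pow]; rfl
    have h3 := Nat.lt_of_mul_lt_mul_left ((h2 _).trans_lt h1)
    omega
  · have h1 := (SJ.colJ (3 * (n₀ + 60) + 1)).chromaticNumber_le
    have h2 := SJ.notK (n₀ + 60) (by omega)
    rw [← SimpleGraph.chromaticNumber_le_iff_colorable, not_le] at h2
    refine lt_of_le_of_lt h1 (lt_of_eq_of_lt ?_ h2)
    congr 1
    omega

end Pool.Agent.Results.MP_6c9e22_co.Differ
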